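import Pool.Agent.Q162.SX.Core
import Pool.Agent.Q161.SX.Stm

/-! Project SX, job DST: the zeros of `f` are distinct modulo `V`. -/

set_option autoImplicit false

namespace Pool.Agent.Q162.SX

open Polynomial
open Pool.Agent.W623.SecC (IsU)
open Pool.Agent.Q161.SX

theorem dst : S_DST := by
  intro f hf
  obtain ⟨N, P, Q, hN0, hN⟩ := exists_bezout hf
  have hf0 : f.leadingCoeff ≠ 0 := by
    rw [Ne, leadingCoeff_eq_zero]
    rintro rfl
    rw [Polynomial.map_zero] at hf
    exact hf.ne_zero rfl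
  refine ⟨(f.leadingCoeff * N).natAbs, Int.natAbs_ne_zero.2 (mul_ne_zero hf0 hN0), ?_⟩
  intro A _ _ _ l hl hlB V hV
  have h1 : ¬ (l : ℤ) ∣ f.leadingCoeff * N := fun h => hlB (Int.natCast_dvd.1 h)
  have hua := int_unit hl hV (n := f.leadingCoeff) fun h => h1 (h.mul_right _)
  have huN := int_unit hl hV (n := N) fun h => h1 (h.mul_left _)
  have hIa : IsU V (f.leadingCoeff : A) := by
    have := isU_of_unit hua
    simpa using this
  have hmem : ∀ i : Rt f A, i.1 ∈ V := by
    intro i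
    have h2 : IsIntegral ℤ (f.leadingCoeff • i.1) := isIntegral_leadingCoeff_smul f i.1 i.2
    have h3 := mem_of_int (V := V) h2
    have h4 := V.mul_mem _ _ hIa.2.2 h3
    rw [zsmul_eq_mul, inv_mul_cancel_left₀ hIa.1] at h4
    exact h4
  refine ⟨hIa, hmem, fun i j hij => ?_⟩
  have h5 := diff_unit hN huN (i := ⟨i.1, hmem i⟩) (j := ⟨j.1, hmem j⟩) i.2 j.2
    (fun h => hij (Subtype.ext (Subtype.mk.inj h)))
  have h6 := isU_of_unit h5
  simpa using h6

end Pool.Agent.Q162.SX
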