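import Pool.Agent.Q162.SX.Core
import Pool.Agent.Q161.SX.Stm

/-! Project SX, job NRM: the prime given by an embedding fixed by Frobenius has degree one. -/

set_option autoImplicit false

namespace Pool.Agent.Q162.SX

open Polynomial
open Pool.Agent.Q161.SX

theorem nrm : S_NRM := by
  intro f L _ _ θ hS A _ _ l hl V φ hlV hF j hj v hv
  have hg := gen hS.irr hS.root hS.deg
  have hjj : (φ : A →ₐ[ℚ] A).comp j = j := by
    refine AlgHom.ext_of_adjoin_eq_top hg ?_
    rintro x hx
    rw [Set.mem_singleton_iff.1 hx]
    exact hj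
  exact nrm_core hl hlV hF.2 j (fun x => DFunLike.congr_fun hjj x) v hv

end Pool.Agent.Q162.SX
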