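import Pool.Agent.W623.SecC.Defs

set_option autoImplicit false

namespace Pool.Agent.Q162.SX

open Polynomial
open Pool.Agent.W623.SecC (IsU)

variable {A : Type*} [Field A]


lemma isU_of_unit {V : ValuationSubring A} {x : V} (h : IsUnit x) : IsU V (x : A) := by
  obtain ⟨u, rfl⟩ := h
  refine ⟨?_, (u : V).2, ?_⟩
  · intro h0
    exact u.ne_zero (Subtype.ext h0)
  · have h1 : ((u : V) : A) * ((u⁻¹ : Vˣ) : V) = 1 := by
      have := u.mul_inv
      exact congrArg (Subtype.val) this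
    rw [← eq_inv_of_mul_eq_one_right h1]
    exact ((u⁻¹ : Vˣ) : V).2

lemma int_unit {V : ValuationSubring A} {l : ℕ} (hl : l.Prime) (h : (l : A) ∈ V.nonunits) {n : ℤ} (hn : ¬ (l : ℤ) ∣ n) :
    IsUnit (n : V) := by
  have h1 : ((l : ℕ) : V) ∈ IsLocalRing.maximalIdeal V := by
    rw [ValuationSubring.mem_nonunits_iff_exists_mem_maximalIdeal] at h
    obtain ⟨h2, h3⟩ := h
    have e : ((l : ℕ) : V) = ⟨(l : A), h2⟩ := Subtype.ext (by push_cast; rfl)
    rw [e]
    exact h3
  by_contra h0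
  have h2 : (n : V) ∈ IsLocalRing.maximalIdeal V := (IsLocalRing.mem_maximalIdeal _).2 h0
  have h3 : IsCoprime (l : ℤ) n := (Nat.prime_iff_prime_int.1 hl).coprime_iff_not_dvd.2 hn
  obtain ⟨a, b, hab⟩ := h3
  have h4 : (1 : V) = (a : V) * ((l : ℕ) : V) + (b : V) * (n : V) := by
    have := congrArg (Int.cast : ℤ → V) hab
    push_cast at this
    exact this.symm
  have h5 : (1 : V) ∈ IsLocalRing.maximalIdeal V := by
    rw [h4]
    exact Ideal.add_mem _ (Ideal.mul_mem_left _ _ h1) (Ideal.mul_mem_left _ _ h2)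
  exact (Ideal.ne_top_iff_one _).1 (IsLocalRing.maximalIdeal.isMaximal V).ne_top h5

lemma mem_of_int {V : ValuationSubring A} {x : A} (h : IsIntegral ℤ x) : x ∈ V := by
  have h1 : IsIntegral V x := h.tower_top
  obtain ⟨y, hy⟩ := (IsIntegrallyClosed.isIntegral_iff (R := V) (K := A)).1 h1
  rw [← hy]
  exact y.2

lemma exists_bezout {f : ℤ[X]} (hf : (f.map (Int.castRingHom ℚ)).Separable) :
    ∃ (N : ℤ) (P Q : ℤ[X]), N ≠ 0 ∧ P * f + Q * derivative f = C N := by
  obtain ⟨a, b, hab⟩ := hf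
  obtain ⟨m1, hm1, h1⟩ := IsLocalization.integerNormalization_spec (nonZeroDivisors ℤ) a
  obtain ⟨m2, hm2, h2⟩ := IsLocalization.integerNormalization_spec (nonZeroDivisors ℤ) b
  set P := IsLocalization.integerNormalization (nonZeroDivisors ℤ) a
  set Q := IsLocalization.integerNormalization (nonZeroDivisors ℤ) b
  refine ⟨m1 * m2, C (m2 : ℤ) * P, C (m1 : ℤ) * Q, mul_ne_zero (nonZeroDivisors.ne_zero hm1) (nonZeroDivisors.ne_zero hm2), ?_⟩
  have hinj : Function.Injective (Polynomial.map (Int.castRingHom ℚ)) := Polynomial.map_injective _ Int.cast_injective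
  apply hinj
  have e1 : P.map (Int.castRingHom ℚ) = C ((m1 : ℤ) : ℚ) * a := by
    have : algebraMap ℤ ℚ = Int.castRingHom ℚ := rfl
    rw [← this, h1]
    rw [zsmul_eq_mul]
    simp
  have e2 : Q.map (Int.castRingHom ℚ) = C ((m2 : ℤ) : ℚ) * b := by
    have : algebraMap ℤ ℚ = Int.castRingHom ℚ := rfl
    rw [← this, h2]
    rw [zsmul_eq_mul]
    simp
  rw [Polynomial.map_add, Polynomial.map_mul, Polynomial.map_mul, Polynomial.map_mul, Polynomial.map_mul, e1, e2,
    ← Polynomial.derivative_map, Polynomial.map_C, Polynomial.map_C, Polynomial.map_C]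
  simp only [eq_intCast, Int.cast_mul, C_mul]
  linear_combination (C ((m1 : ℤ) : ℚ) * C ((m2 : ℤ) : ℚ)) * hab

lemma diff_unit {V : ValuationSubring A} {f P Q : ℤ[X]} {N : ℤ} (hN : P * f + Q * derivative f = C N)
    (hu : IsUnit (N : V)) {i j : V} (hi : aeval (i : A) f = 0) (hj : aeval (j : A) f = 0) (hij : i ≠ j) :
    IsUnit (i - j) := by
  have hv : ∀ (x : V) (g : ℤ[X]), ((eval x (g.map (Int.castRingHom V)) : V) : A) = aeval (x : A) g := by
    intro x g
    rw [eval_map, aeval_def]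
    have := Polynomial.hom_eval₂ g (Int.castRingHom V) V.subtype x
    rw [show ((eval₂ (Int.castRingHom V) x g : V) : A) = V.subtype (eval₂ (Int.castRingHom V) x g) from rfl, this]
    congr 1
  set p : V[X] := f.map (Int.castRingHom V) with hp
  have h1 : p.eval i = 0 := Subtype.ext (by rw [hv]; exact hi)
  have h2 : p.eval j = 0 := Subtype.ext (by rw [hv]; exact hj)
  obtain ⟨g, hg⟩ := Polynomial.dvd_iff_isRoot.2 h1
  have h3 : g.eval j = 0 := by
    rw [hg, eval_mul, eval_sub, eval_X, eval_C] at h2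
    exact (mul_eq_zero.1 h2).resolve_left (sub_ne_zero.2 (Ne.symm hij))
  have h4 : (derivative p).eval i = g.eval i := by
    rw [hg, derivative_mul, derivative_sub, derivative_X, derivative_C]
    simp
  have h5 : (i - j) ∣ g.eval i - g.eval j := Polynomial.sub_dvd_eval_sub i j g
  rw [h3, sub_zero, ← h4] at h5
  have h6 : (N : V) = eval i (Q.map (Int.castRingHom V)) * (derivative p).eval i := by
    have h7 := congrArg (fun q : ℤ[X] => eval i (q.map (Int.castRingHom V))) hN
    simp only [Polynomial.map_add, Polynomial.map_mul, eval_add, eval_mul, Polynomial.map_C, eval_C, ← hp, h1,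
      mul_zero, zero_add, ← Polynomial.derivative_map] at h7
    rw [h7]
    rfl
  have h8 : (i - j) ∣ (N : V) := by
    rw [h6]
    exact h5.mul_left _
  exact isUnit_of_dvd_unit h8 hu

/-! ### the prime given by an embedding fixed by Frobenius -/

open NumberField IsDedekindDomain

lemma card_field {k : Type*} [Field k] [Finite k] {l : ℕ} (hl : l.Prime) (h0 : (l : k) = 0) (h : ∀ x : k, x ^ l = x) :
    Nat.card k = l ∧ ∀ x : k, ∃ c : ℤ, x = (c : k) := by
  have _ : Fact l.Prime := ⟨hl⟩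
  have : CharP k l := (CharP.charP_iff_prime_eq_zero hl).2 h0
  have := Fintype.ofFinite k
  have h1 : Fintype.card k ≤ l := by
    have h2 : (X ^ l - X : k[X]) ≠ 0 := FiniteField.X_pow_card_sub_X_ne_zero k hl.one_lt
    have h3 : (Finset.univ : Finset k).card ≤ (X ^ l - X : k[X]).natDegree := by
      refine Polynomial.card_le_degree_of_subset_roots fun x _ => ?_
      rw [mem_roots h2, IsRoot, eval_sub, eval_pow, eval_X, h x, sub_self]
    rw [FiniteField.X_pow_card_sub_X_natDegree_eq k hl.one_lt, Finset.card_univ] at h3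
    exact h3
  have hinj : Function.Injective (ZMod.castHom (dvd_refl l) k) := RingHom.injective _
  have h2 : Fintype.card (ZMod l) ≤ Fintype.card k := Fintype.card_le_of_injective _ hinj
  rw [ZMod.card] at h2
  have h3 : Fintype.card k = l := le_antisymm h1 h2
  refine ⟨by rw [Nat.card_eq_fintype_card, h3], fun x => ?_⟩
  have hb : Function.Bijective (ZMod.castHom (dvd_refl l) k) :=
    (Fintype.bijective_iff_injective_and_card _).2 ⟨hinj, by rw [ZMod.card, h3]⟩
  obtain ⟨c, hc⟩ := hb.2 x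
  refine ⟨c.val, ?_⟩
  rw [← hc, ← ZMod.natCast_zmod_val c, map_natCast]
  simp

lemma gen {L : Type*} [Field L] [NumberField L] {f : ℤ[X]} {θ : L} (irr : Irreducible (f.map (Int.castRingHom ℚ)))
    (root : aeval θ f = 0) (deg : Module.finrank ℚ L = f.natDegree) : Algebra.adjoin ℚ {θ} = ⊤ := by
  have hr : aeval θ (f.map (Int.castRingHom ℚ)) = 0 := by
    have : f.map (Int.castRingHom ℚ) = f.map (algebraMap ℤ ℚ) := rfl
    rw [this, aeval_map_algebraMap]
    exact root
  have h1 := minpoly.eq_of_irreducible irr hr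
  have h2 : (minpoly ℚ θ).natDegree = f.natDegree := by
    rw [← h1, natDegree_mul_C (inv_ne_zero (leadingCoeff_ne_zero.2 irr.ne_zero)),
      natDegree_map_eq_of_injective Int.cast_injective]
  have h3 : IntermediateField.adjoin ℚ {θ} = ⊤ := by
    rw [Field.primitive_element_iff_minpoly_natDegree_eq, h2, deg]
  have h4 : IsIntegral ℚ θ := Algebra.IsIntegral.isIntegral θ
  rw [← IntermediateField.adjoin_simple_toSubalgebra_of_isAlgebraic h4.isAlgebraic, h3]
  rfl

lemma nrm_core {L : Type*} [Field L] [NumberField L] [Algebra ℚ A] {l : ℕ} (hl : l.Prime) {V : ValuationSubring A}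
    {φ : A ≃ₐ[ℚ] A} (hlV : (l : A) ∈ V.nonunits) (hφ : ∀ z ∈ V, φ z - z ^ l ∈ V.nonunits) (j : L →ₐ[ℚ] A)
    (hj : ∀ x, φ (j x) = j x) (v : HeightOneSpectrum (𝓞 L)) (hv : ∀ a : 𝓞 L, a ∈ v.asIdeal ↔ j (a : L) ∈ V.nonunits) :
    Ideal.absNorm v.asIdeal = l ∧ ∀ g : 𝓞 L, ∃ c : ℤ, g - (c : 𝓞 L) ∈ v.asIdeal := by
  have : v.asIdeal.IsMaximal := v.isMaximal
  let _ : Field (𝓞 L ⧸ v.asIdeal) := Ideal.Quotient.field v.asIdeal
  have : Finite (𝓞 L ⧸ v.asIdeal) := Ideal.finiteQuotientOfFreeOfNeBot v.asIdeal v.ne_bot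
  have h0 : ((l : ℕ) : 𝓞 L ⧸ v.asIdeal) = 0 := by
    have : ((l : ℕ) : 𝓞 L ⧸ v.asIdeal) = Ideal.Quotient.mk v.asIdeal ((l : ℕ) : 𝓞 L) := by simp
    rw [this, Ideal.Quotient.eq_zero_iff_mem, hv]
    simpa using hlV
  have hp : ∀ x : 𝓞 L ⧸ v.asIdeal, x ^ l = x := by
    intro x
    obtain ⟨g, rfl⟩ := Ideal.Quotient.mk_surjective x
    rw [← map_pow, eq_comm, Ideal.Quotient.eq, hv]
    have hg : j (g : L) ∈ V := by
      refine mem_of_int ?_
      exact (RingOfIntegers.isIntegral_coe g).map (j.restrictScalars ℤ)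
    have h1 := hφ _ hg
    rw [hj] at h1
    simpa using h1
  obtain ⟨h1, h2⟩ := card_field hl h0 hp
  refine ⟨?_, fun g => ?_⟩
  · rw [Ideal.absNorm_apply, Submodule.cardQuot_apply]
    exact h1
  · obtain ⟨c, hc⟩ := h2 (Ideal.Quotient.mk v.asIdeal g)
    refine ⟨c, ?_⟩
    rw [← Ideal.Quotient.eq, hc]
    simp

end Pool.Agent.Q162.SX
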